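import Pool.Agent.N422.NWS.Stm
import Pool.Agent.N422.NW.JEN

/-! Project NWS of helper422 / helper962, piece SITE (helper245): the kernel of one site from the windows. -/

set_option autoImplicit false
set_option linter.all false

open Finset MeasureTheory

namespace Pool.Agent.Run7.h245.NW

open Pool.Agent.N422.NW Pool.Agent.N422.NWS

/-! ### trigonometry on the circle and at the base point -/

theorem cz_base (t : ℝ) (x : ℕ) : cz t x ((Real.exp (-t) : ℝ) : ℂ) = 0 := by
  unfold cz
  have h1 : ((Real.exp (-t) : ℝ) : ℂ)⁻¹ = ((Real.exp t : ℝ) : ℂ) := by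
    rw [← Complex.ofReal_inv, ← Real.exp_neg, neg_neg]
  rw [h1, ← Complex.ofReal_pow, ← Complex.ofReal_pow, ← Real.exp_nat_mul, ← Real.exp_nat_mul,
    Real.cosh_eq]
  push_cast
  have e : (x : ℂ) * (-(t : ℂ)) = -((x : ℂ) * t) := by ring
  rw [e]
  ring

theorem cz_circle (t : ℝ) (x : ℕ) {z : ℂ} (hz : ‖z‖ = 1) : cz t x z = ((cr t x z : ℝ) : ℂ) := by
  unfold cz cr
  have h1 : z⁻¹ = (starRingEnd ℂ) z := by
    rw [Complex.inv_def, Complex.normSq_eq_norm_sq, hz]
    simp
  have h2 : (z ^ x + (z⁻¹) ^ x) / 2 = (((z ^ x).re : ℝ) : ℂ) := by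
    rw [h1, ← map_pow, Complex.add_conj]
    push_cast
    ring
  rw [h2]
  push_cast
  rfl

/-! ### casts -/

theorem th_cast {m : ℕ} (κ : ℝ) (c : ℕ → ℝ) (v : ℕ) (hs : Fin m → ℕ) (p : Fin m → ℝ)
    (a : Finset (Fin m) → ℝ) (X : Finset (Fin m)) :
    th (κ : ℂ) (fun x => (c x : ℂ)) v hs (fun i => (p i : ℂ)) (fun A => (a A : ℂ)) X =
      ((th κ c v hs p a X : ℝ) : ℂ) := by
  have h : ∀ q : Prop, ∀ _ : Decidable q, (((if q then (1 : ℝ) else 0) : ℝ) : ℂ) = if q then 1 else 0 := by
    intro q _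
    split_ifs <;> simp
  unfold th ee
  push_cast
  simp only [h]

theorem KW_cast {N m : ℕ} (win : Fin N → ℕ) (cel : Fin N → Fin m) (u : Fin N → ℝ) (L : ℕ)
    (σ : ℕ → ℝ) (θ : ℕ → Finset (Fin m) → ℝ) (T T' : Finset (Fin N)) :
    KW win cel (fun i => (u i : ℂ)) L (fun l => (σ l : ℂ)) (fun l X => (θ l X : ℂ)) T T' =
      ((KW win cel u L σ θ T T' : ℝ) : ℂ) := by
  unfold KW mW
  push_cast
  refine prod_congr rfl fun l _ => ?_
  split_ifs <;> push_cast <;>
    (try congr 1) <;> (try congr 1) <;> (try (refine prod_congr rfl fun i _ => ?_)) <;>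
    (try split_ifs) <;> push_cast <;> rfl

/-! ### the identity at the base point -/

theorem KW_zero {K : Type} [Field K] {N m : ℕ} (win : Fin N → ℕ) (cel : Fin N → Fin m) (u : Fin N → K)
    (L : ℕ) (hwin : ∀ i, win i < L) (T T' : Finset (Fin N)) :
    KW win cel u L (fun _ => 0) (fun _ _ => 0) T T' = if T' = T then 1 else 0 := by
  unfold KW
  have h1 : ∀ l ∈ range L, (if (∀ i ∈ T, l ≤ win i) then
      (1 - (0 : K)) * (if Tl win T' l = Tl win T l then 1 else 0) + mW win u l T' * 0
    else (if Tl win T' l = Tl win T l then 1 else 0)) = if Tl win T' l = Tl win T l then 1 else 0 := by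
    intro l _
    split_ifs <;> simp
  rw [prod_congr rfl h1]
  by_cases h : T' = T
  · rw [if_pos h, h]
    simp
  · rw [if_neg h]
    have h2 : ∃ i, ¬ (i ∈ T' ↔ i ∈ T) := by
      by_contra hc
      push Not at hc
      exact h (Finset.ext hc)
    obtain ⟨i, hi⟩ := h2
    refine prod_eq_zero (mem_range.2 (hwin i)) ?_
    rw [if_neg]
    intro he
    apply hi
    have h3 := Finset.ext_iff.1 he i
    unfold Tl at h3
    simpa using h3

/-! ### signs -/

theorem mW_nonneg {N : ℕ} (win : Fin N → ℕ) (u : Fin N → ℝ) (hu : ∀ i, 0 ≤ u i ∧ u i ≤ 1 / 2) (l : ℕ)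
    (T : Finset (Fin N)) : 0 ≤ mW win u l T := by
  unfold mW
  refine prod_nonneg fun i _ => ?_
  split_ifs
  · exact (hu i).1
  · linarith [(hu i).2]

theorem KW_nonneg {N m : ℕ} (win : Fin N → ℕ) (cel : Fin N → Fin m) (u : Fin N → ℝ)
    (hu : ∀ i, 0 ≤ u i ∧ u i ≤ 1 / 2) (L : ℕ) (σ : ℕ → ℝ) (θ : ℕ → Finset (Fin m) → ℝ)
    (hσ : ∀ l < L, σ l ≤ 1 / 2) (hθ : ∀ l < L, ∀ X, 0 ≤ θ l X) (T T' : Finset (Fin N)) :
    0 ≤ KW win cel u L σ θ T T' := by
  unfold KW
  refine prod_nonneg fun l hl => ?_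
  rw [mem_range] at hl
  have h1 : (0 : ℝ) ≤ if Tl win T' l = Tl win T l then 1 else 0 := by split_ifs <;> norm_num
  by_cases h : ∀ i ∈ T, l ≤ win i
  · rw [if_pos h]
    exact add_nonneg (mul_nonneg (by linarith [hσ l hl]) h1)
      (mul_nonneg (mW_nonneg win u hu l T') (hθ l hl _))
  · rw [if_neg h]
    exact h1

theorem PW_pos {N m : ℕ} (win : Fin N → ℕ) (cel : Fin N → Fin m) (L : ℕ) (σ : ℕ → ℝ)
    (θ : ℕ → Finset (Fin m) → ℝ) (hσ : ∀ l < L, σ l ≤ 1 / 2) (hθ : ∀ l < L, ∀ X, θ l X ≤ 1 / 2)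
    (T : Finset (Fin N)) : 0 < PW win cel L σ θ T := by
  unfold PW
  refine prod_pos fun l hl => ?_
  rw [mem_range] at hl
  split_ifs with h
  · exact div_pos (by linarith [hθ l hl ((Tl win T l).image cel)]) (by linarith [hσ l hl])
  · exact one_pos

theorem log_PW {N m : ℕ} (win : Fin N → ℕ) (cel : Fin N → Fin m) (L : ℕ) (σ : ℕ → ℝ)
    (θ : ℕ → Finset (Fin m) → ℝ) (hσ : ∀ l < L, σ l ≤ 1 / 2) (hθ : ∀ l < L, ∀ X, θ l X ≤ 1 / 2)
    (T : Finset (Fin N)) : Real.log (PW win cel L σ θ T) = ∑ l ∈ range L,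
      if (∀ i ∈ T, l ≤ win i) then
        Real.log ((1 - θ l ((Tl win T l).image cel)) / (1 - σ l)) else 0 := by
  unfold PW
  rw [Real.log_prod]
  · refine sum_congr rfl fun l _ => ?_
    split_ifs
    · rfl
    · exact Real.log_one
  · intro l hl
    rw [mem_range] at hl
    split_ifs with h
    · exact (div_pos (by linarith [hθ l hl ((Tl win T l).image cel)])
        (by linarith [hσ l hl])).ne'
    · exact one_ne_zero

/-! ### the cells -/

theorem pc_nonneg {N m : ℕ} (win : Fin N → ℕ) (cel : Fin N → Fin m) (u : Fin N → ℝ)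
    (hu : ∀ i, 0 ≤ u i ∧ u i ≤ 1 / 2) (l : ℕ) (c : Fin m) : 0 ≤ pc win cel u l c := by
  unfold pc
  have h : ∏ i ∈ univ.filter (fun i => win i = l ∧ cel i = c), (1 - u i) ≤ 1 :=
    prod_le_one (fun i _ => by linarith [(hu i).2]) (fun i _ => by linarith [(hu i).1])
  linarith

/-- the telescoping sum -/
theorem tele (L : ℕ) (hL : 1 ≤ L) (R G Q : ℕ → ℝ) (S : ℕ → Prop) [DecidablePred S]
    (hlast : ∀ l < L, ¬ S l → -R l ≤ G l) (hfull : ∀ l < L, S l → Q l - R l ≤ G l)
    (hrec : ∀ l, l + 1 < L → R (l + 1) ≤ Q l) (l0 : ℕ) (hS : ∀ l < l0, S l) (hS0 : l0 < L → ¬ S l0) :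
    (if L ≤ l0 then Q (L - 1) else 0) - R 0 ≤ ∑ l ∈ range L, if l ≤ l0 then G l else 0 := by
  have key : ∀ n, n ≤ l0 → n < L → R n - R 0 ≤ ∑ l ∈ range n, G l := by
    intro n
    induction n with
    | zero => intro _ _; simp
    | succ n ih =>
      intro h1 h2
      rw [sum_range_succ]
      have h3 := ih (by omega) (by omega)
      have h4 := hfull n (by omega) (hS n (by omega))
      have h5 := hrec n h2
      linarith
  by_cases hl : L ≤ l0
  · rw [if_pos hl]
    have e : ∑ l ∈ range L, (if l ≤ l0 then G l else 0) = ∑ l ∈ range L, G l := by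
      refine sum_congr rfl fun l hl' => ?_
      rw [mem_range] at hl'
      rw [if_pos (by omega)]
    rw [e]
    obtain ⟨n, rfl⟩ : ∃ n, L = n + 1 := ⟨L - 1, by omega⟩
    rw [sum_range_succ]
    have h3 := key n (by omega) (by omega)
    have h4 := hfull n (by omega) (hS n (by omega))
    simp only [Nat.add_sub_cancel]
    linarith
  · rw [if_neg hl]
    have e : ∑ l ∈ range L, (if l ≤ l0 then G l else 0) = ∑ l ∈ range (l0 + 1), G l := by
      rw [← sum_filter]
      refine sum_congr ?_ fun _ _ => rfl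
      ext l
      simp only [mem_filter, mem_range]
      omega
    rw [e, sum_range_succ]
    have h3 := key l0 le_rfl (by omega)
    have h4 := hlast l0 (by omega) (hS0 (by omega))
    linarith

theorem t_SITE (h1 : S_WIN) (h2 : S_SEQ) (h3 : S_MOM) (h4 : S_TRIG) : S_SITE := by
  intro m hs ε hhs hε
  obtain ⟨κ, B0, υ0, hκ, hB0, hυ0, H⟩ := h1 m hs ε hhs hε
  refine ⟨B0, min υ0 1, hB0, lt_min hυ0 one_pos, ?_⟩
  intro N L k win cel u v t B D hL hwin hu ht hv hB hpc hD hrec
  have hch : ∀ l, ∃ a : Finset (Fin m) → ℝ, l < L → ∀ X : Finset (Fin m),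
      (∀ z : ℂ, ‖z‖ = 1 → 0 ≤ th κ (fun x => cr t x z) (v l) hs (pc win cel u l) a X ∧
        th κ (fun x => cr t x z) (v l) hs (pc win cel u l) a X ≤ 1 / 2 ∧
        0 ≤ κ * cr t (v l) z ∧ κ * cr t (v l) z ≤ 1 / 2) ∧
      v l * t * (B l * ((if X = ∅ then (∏ c, (1 - pc win cel u l c))⁻¹ else 0) - 1) -
        ((1 / 2 + ε) * (∑ A ∈ univ.erase (∅ : Finset (Fin m)),
          (∏ c ∈ A, pc win cel u l c / (1 - pc win cel u l c)) / (sz hs A : ℝ)) + ε) * B l ^ 2) ≤
        Real.circleAverage (fun w => Real.log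
          ((1 - th κ (fun x => cr t x (psi (Real.exp (-t)) w)) (v l) hs (pc win cel u l) a X) /
          (1 - κ * cr t (v l) (psi (Real.exp (-t)) w)))) 0 1 := by
    intro l
    by_cases hl : l < L
    · obtain ⟨a, ha⟩ := H (v l) t (hv l hl).1 ht ((hv l hl).2.trans (min_le_left _ _))
        (pc win cel u l) (fun c => ⟨pc_nonneg win cel u hu l c, hpc l hl c⟩) (B l) (hB l hl).1
        (hB l hl).2
      exact ⟨a, fun _ => ha⟩
    · exact ⟨0, fun h => absurd h hl⟩
  choose a ha using hch
  have hA := t_AV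
  have hpsi : ∀ w : ℂ, ‖w‖ = 1 → ‖psi (Real.exp (-t)) w‖ = 1 := (hA 0 t ht).1
  -- the real data
  set σ : ℂ → ℕ → ℝ := fun z l => κ * cr t (v l) z with hσ
  set θ : ℂ → ℕ → Finset (Fin m) → ℝ := fun z l X =>
    th κ (fun x => cr t x z) (v l) hs (pc win cel u l) (a l) X with hθ
  have hσb : ∀ z : ℂ, ‖z‖ = 1 → ∀ l < L, σ z l ≤ 1 / 2 := fun z hz l hl => ((ha l hl ∅).1 z hz).2.2.2
  have hθ0 : ∀ z : ℂ, ‖z‖ = 1 → ∀ l < L, ∀ X, 0 ≤ θ z l X := fun z hz l hl X =>
    ((ha l hl X).1 z hz).1
  have hθb : ∀ z : ℂ, ‖z‖ = 1 → ∀ l < L, ∀ X, θ z l X ≤ 1 / 2 := fun z hz l hl X =>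
    ((ha l hl X).1 z hz).2.1
  refine ⟨fun z => KW win cel (fun i => (u i : ℂ)) L (fun l => (κ : ℂ) * cz t (v l) z)
      (fun l X => th (κ : ℂ) (fun x => cz t x z) (v l) hs (fun c => (pc win cel u l c : ℂ))
        (fun A => (a l A : ℂ)) X),
    fun z => KW win cel u L (σ z) (θ z), fun z => PW win cel L (σ z) (θ z), ?_, ?_, ?_, ?_⟩
  · intro T T'
    have e1 : (fun l : ℕ => (κ : ℂ) * cz t (v l) ((Real.exp (-t) : ℝ) : ℂ)) = fun _ => 0 := by
      funext l
      rw [cz_base, mul_zero]
    have e2 : (fun (l : ℕ) (X : Finset (Fin m)) => th (κ : ℂ)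
        (fun x => cz t x ((Real.exp (-t) : ℝ) : ℂ)) (v l) hs (fun c => (pc win cel u l c : ℂ))
        (fun A => (a l A : ℂ)) X) = fun _ _ => 0 := by
      funext l X
      unfold th
      simp only [cz_base, mul_zero, zero_mul, sum_const_zero, add_zero]
    simp only [e1, e2]
    exact KW_zero win cel _ L hwin T T'
  · exact (h3 N m L win cel u t κ v hs a hhs hwin).1
  · intro z hz
    refine ⟨fun T T' => ⟨?_, KW_nonneg win cel u hu L _ _ (hσb z hz) (hθ0 z hz) T T'⟩,
      fun T => PW_pos win cel L _ _ (hσb z hz) (hθb z hz) T, ?_⟩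
    · rw [← KW_cast]
      have e1 : (fun l : ℕ => (κ : ℂ) * cz t (v l) z) = fun l => ((σ z l : ℝ) : ℂ) := by
        funext l
        rw [cz_circle t (v l) hz]
        simp only [hσ]
        push_cast
        rfl
      have e2 : (fun (l : ℕ) (X : Finset (Fin m)) => th (κ : ℂ) (fun x => cz t x z) (v l) hs
          (fun c => (pc win cel u l c : ℂ)) (fun A => (a l A : ℂ)) X) =
          fun l X => ((θ z l X : ℝ) : ℂ) := by
        funext l X
        simp only [hθ]
        rw [← th_cast]
        congr 1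
        funext x
        exact cz_circle t x hz
      simp only [e1, e2]
    · refine h2 N m L k win cel u (σ z) (θ z) hwin hu
        (fun l hl X => ⟨hθ0 z hz l hl X, hθb z hz l hl X⟩) (fun l _ => ?_)
      exact (h3 N m L win cel u t κ v hs a hhs hwin).2 l (fun x => cr t x z)
  · intro T
    have hnw : ∀ x : ℝ, ‖circleMap (0 : ℂ) 1 x‖ = 1 := by
      intro x
      simp [circleMap]
    have hzw : ∀ x : ℝ, ‖psi (Real.exp (-t)) (circleMap 0 1 x)‖ = 1 := fun x => hpsi _ (hnw x)
    -- continuity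
    have hcr : ∀ l < L, ∀ y : ℕ, Continuous
        (fun x : ℝ => cr t y (psi (Real.exp (-t)) (circleMap 0 1 x))) := fun l hl y =>
      ((h4 (v l) t (hv l hl).1 ht ((hv l hl).2.trans (min_le_right _ _))).2 y).1
    have hcσ : ∀ l < L, Continuous (fun x : ℝ => σ (psi (Real.exp (-t)) (circleMap 0 1 x)) l) :=
      fun l hl => (hcr l hl (v l)).const_mul κ |> fun h => by simpa only [hσ] using h
    have hcθ : ∀ l < L, ∀ X, Continuous
        (fun x : ℝ => θ (psi (Real.exp (-t)) (circleMap 0 1 x)) l X) := by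
      intro l hl X
      simp only [hθ]
      unfold th
      refine ((hcr l hl (v l)).const_mul κ).add (continuous_finset_sum _ fun A _ => ?_)
      exact ((hcr l hl _).const_mul (a l A)).mul continuous_const
    have hint : ∀ l < L, ∀ X, CircleIntegrable (fun w => Real.log
        ((1 - θ (psi (Real.exp (-t)) w) l X) / (1 - σ (psi (Real.exp (-t)) w) l))) 0 1 := by
      intro l hl X
      unfold CircleIntegrable
      refine Continuous.intervalIntegrable ?_ _ _
      refine Continuous.log ?_ ?_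
      · refine (continuous_const.sub (hcθ l hl X)).div (continuous_const.sub (hcσ l hl)) ?_
        intro x
        linarith [hσb _ (hzw x) l hl]
      · intro x
        exact (div_pos (by linarith [hθb _ (hzw x) l hl X])
          (by linarith [hσb _ (hzw x) l hl])).ne'
    have hint' : ∀ l ∈ range L, CircleIntegrable (fun w =>
        if (∀ i ∈ T, l ≤ win i) then Real.log
        ((1 - θ (psi (Real.exp (-t)) w) l ((Tl win T l).image cel)) /
          (1 - σ (psi (Real.exp (-t)) w) l)) else 0) 0 1 := by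
      intro l hl
      rw [mem_range] at hl
      by_cases hc : ∀ i ∈ T, l ≤ win i
      · simp only [if_pos hc]
        exact hint l hl _
      · simp only [if_neg hc]
        exact circleIntegrable_const _ _ _
    have hsphere : Set.EqOn (fun w => Real.log (PW win cel L (σ (psi (Real.exp (-t)) w))
        (θ (psi (Real.exp (-t)) w)) T)) (fun w => ∑ l ∈ range L,
        if (∀ i ∈ T, l ≤ win i) then Real.log
        ((1 - θ (psi (Real.exp (-t)) w) l ((Tl win T l).image cel)) /
          (1 - σ (psi (Real.exp (-t)) w) l)) else 0) (Metric.sphere 0 |(1 : ℝ)|) := by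
      intro w hw
      rw [abs_one, mem_sphere_zero_iff_norm] at hw
      exact log_PW win cel L _ _ (hσb _ (hpsi w hw)) (hθb _ (hpsi w hw)) T
    have hsum : CircleIntegrable (fun w => ∑ l ∈ range L,
        if (∀ i ∈ T, l ≤ win i) then Real.log
        ((1 - θ (psi (Real.exp (-t)) w) l ((Tl win T l).image cel)) /
          (1 - σ (psi (Real.exp (-t)) w) l)) else 0) 0 1 := by
      have := CircleIntegrable.sum (range L) hint'
      convert this using 1
      funext w
      simp
    constructor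
    · refine (circleIntegrable_congr ?_).2 hsum
      exact hsphere
    · rw [Real.circleAverage_congr_sphere hsphere, Real.circleAverage_fun_sum hint']
      -- the first window which is hit
      obtain ⟨l0, hl0, hl0'⟩ : ∃ l0 : ℕ, (∀ l < L, (∀ i ∈ T, l ≤ win i) ↔ l ≤ l0) ∧
          ((T = ∅ ∧ l0 = L) ∨ (T ≠ ∅ ∧ l0 < L ∧ ∃ i ∈ T, win i = l0)) := by
        by_cases hT : T = ∅
        · refine ⟨L, fun l hl => ?_, Or.inl ⟨hT, rfl⟩⟩
          subst hT
          simp [hl.le]
        · have hne : T.Nonempty := nonempty_iff_ne_empty.2 hT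
          obtain ⟨i0, hi0, hmin⟩ := exists_min_image T win hne
          refine ⟨win i0, fun l _ => ⟨fun h => h i0 hi0, fun h i hi => h.trans (hmin i hi)⟩,
            Or.inr ⟨hT, hwin i0, i0, hi0, rfl⟩⟩
      have hX : ∀ l < L, l < l0 → (Tl win T l).image cel = ∅ := by
        intro l hl hlt
        rw [image_eq_empty]
        unfold Tl
        rw [filter_eq_empty_iff]
        intro i hi he
        have h5 : l + 1 ≤ l0 := hlt
        by_cases h6 : l + 1 < L
        · have := (hl0 (l + 1) h6).2 h5 i hi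
          omega
        · rcases hl0' with ⟨hT, -⟩ | ⟨-, h7, -⟩
          · rw [hT] at hi
            exact absurd hi (notMem_empty i)
          · omega
      have hX0 : l0 < L → (Tl win T l0).image cel ≠ ∅ := by
        intro h5
        rcases hl0' with ⟨-, h6⟩ | ⟨-, -, i, hi, he⟩
        · omega
        · intro h7
          rw [image_eq_empty] at h7
          unfold Tl at h7
          rw [filter_eq_empty_iff] at h7
          exact h7 hi he
      set R : ℕ → ℝ := fun l => v l * t * (B l + D * B l ^ 2) with hR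
      set Q : ℕ → ℝ := fun l => v l * t * ((∏ c, (1 - pc win cel u l c))⁻¹ * B l) with hQ
      set G : ℕ → ℝ := fun l => Real.circleAverage (fun w => Real.log
        ((1 - θ (psi (Real.exp (-t)) w) l ((Tl win T l).image cel)) /
          (1 - σ (psi (Real.exp (-t)) w) l))) 0 1 with hG
      have hGb : ∀ l < L, v l * t * (B l * ((if (Tl win T l).image cel = ∅ then
          (∏ c, (1 - pc win cel u l c))⁻¹ else 0) - 1) - D * B l ^ 2) ≤ G l := by
        intro l hl
        refine le_trans ?_ (ha l hl ((Tl win T l).image cel)).2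
        have h5 := hD l hl
        have h6 : 0 ≤ (v l : ℝ) * t := by positivity
        refine mul_le_mul_of_nonneg_left ?_ h6
        have h7 := mul_le_mul_of_nonneg_right h5 (sq_nonneg (B l))
        linarith
      have hT := tele L hL R G Q (fun l => (Tl win T l).image cel = ∅) ?_ ?_ ?_ l0 ?_ ?_
      · have e1 : ∑ l ∈ range L, Real.circleAverage (fun w =>
            if (∀ i ∈ T, l ≤ win i) then Real.log
            ((1 - θ (psi (Real.exp (-t)) w) l ((Tl win T l).image cel)) /
              (1 - σ (psi (Real.exp (-t)) w) l)) else 0) 0 1 =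
            ∑ l ∈ range L, if l ≤ l0 then G l else 0 := by
          refine sum_congr rfl fun l hl => ?_
          rw [mem_range] at hl
          by_cases hc : l ≤ l0
          · simp only [if_pos hc, if_pos ((hl0 l hl).2 hc), hG]
          · have hc' : ¬ ∀ i ∈ T, l ≤ win i := fun h => hc ((hl0 l hl).1 h)
            simp only [if_neg hc, if_neg hc']
            exact Real.circleAverage_const _ _ _
        rw [e1]
        refine le_trans (le_of_eq ?_) hT
        have e2 : (T = ∅) ↔ L ≤ l0 := by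
          rcases hl0' with ⟨h5, h6⟩ | ⟨h5, h6, -⟩
          · simp [h5, h6]
          · simp only [h5, false_iff, not_le]
            exact h6
        simp only [hR, hQ]
        by_cases hc : T = ∅
        · rw [if_pos hc, if_pos (e2.1 hc)]
          ring
        · rw [if_neg hc, if_neg (fun h => hc (e2.2 h))]
      · intro l hl hS
        have h5 := hGb l hl
        rw [if_neg hS] at h5
        simp only [hR]
        linarith
      · intro l hl hS
        have h5 := hGb l hl
        rw [if_pos hS] at h5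
        simp only [hR, hQ]
        linarith
      · intro l hl
        have h5 := hrec l hl
        simp only [hR, hQ]
        have h6 := mul_le_mul_of_nonneg_right h5 ht.le
        linarith
      · intro l hl
        by_cases hlL : l < L
        · exact hX l hlL hl
        · rcases hl0' with ⟨h5, h6⟩ | ⟨-, h6, -⟩
          · omega
          · omega
      · exact hX0

end Pool.Agent.Run7.h245.NW
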